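import Mathlib

set_option autoImplicit false

/-!
# The theorem of Green and Rees
-/

namespace Pool.Agent.H32GR

section
variable {M : Type} [Monoid M] {n : ℕ}

/-- `J`-preorder -/
def JL (a b : M) : Prop := ∃ x y : M, a = x * b * y

theorem JL.refl (a : M) : JL a a := ⟨1, 1, by simp⟩

theorem JL.trans {a b c : M} (h : JL a b) (h' : JL b c) : JL a c := by
  obtain ⟨x, y, rfl⟩ := h
  obtain ⟨u, v, rfl⟩ := h'
  exact ⟨x * u, v * y, by simp [mul_assoc]⟩

theorem pow_idem (hn : 1 ≤ n) (hM : ∀ x : M, x ^ (n + 1) = x) (x : M) : x ^ n * x ^ n = x ^ n := by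
  obtain ⟨k, rfl⟩ := Nat.exists_eq_add_of_le' hn
  have h : x ^ (k + 1) * x ^ (k + 1) = x ^ (k + 1 + 1) * x ^ k := by
    rw [← pow_add, ← pow_add]; congr 1; omega
  rw [h, hM, ← pow_succ']

theorem jl_sq (hn : 1 ≤ n) (hM : ∀ x : M, x ^ (n + 1) = x) (a : M) : JL a (a * a) := by
  obtain ⟨k, rfl⟩ := Nat.exists_eq_add_of_le' hn
  refine ⟨1, a ^ k, ?_⟩
  have h := hM a
  rw [one_mul, mul_assoc, ← pow_succ', ← pow_succ']
  exact h.symm

theorem jl_comm (hn : 1 ≤ n) (hM : ∀ x : M, x ^ (n + 1) = x) (a b : M) :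
    JL (a * b) (b * a) := by
  refine (jl_sq hn hM (a * b)).trans ⟨a, b, by simp [mul_assoc]⟩

theorem jl_mul (hn : 1 ≤ n) (hM : ∀ x : M, x ^ (n + 1) = x) {a b c : M} (hb : JL a b)
    (hc : JL a c) : JL a (b * c) := by
  obtain ⟨s, t, hb⟩ := hb
  obtain ⟨u, v, hc⟩ := hc
  have h1 : JL a (a * a) := jl_sq hn hM a
  have h2 : JL (a * a) ((c * v * s) * b) := by
    refine ⟨u, t, ?_⟩
    nth_rewrite 1 [hc]
    rw [hb]
    simp [mul_assoc]
  have h3 : JL ((c * v * s) * b) (b * (c * v * s)) := jl_comm hn hM _ _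
  have h4 : JL (b * (c * v * s)) (b * c) := ⟨1, v * s, by simp [mul_assoc]⟩
  exact ((h1.trans h2).trans h3).trans h4

theorem iter_eq {x w t : M} (h : w = x * w * t) (k : ℕ) : w = x ^ k * w * t ^ k := by
  induction k with
  | zero => simp
  | succ k ih =>
    calc w = x * w * t := h
      _ = x * (x ^ k * w * t ^ k) * t := by rw [← ih]
      _ = x ^ (k + 1) * w * t ^ (k + 1) := by
        rw [pow_succ' x, pow_succ t]; simp [mul_assoc]

/-- right factorisation -/
theorem right_fac (hn : 1 ≤ n) (hM : ∀ x : M, x ^ (n + 1) = x) {w t : M} (h : JL w (w * t)) :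
    ∃ y, w = w * t * y := by
  obtain ⟨x, y, h⟩ := h
  have h1 : w = x * w * (t * y) := h.trans (by simp [mul_assoc])
  have h2 := iter_eq h1 n
  have h3 : w * (t * y) ^ n = w := by
    rw [h2, mul_assoc, pow_idem hn hM, ← h2]
  obtain ⟨k, rfl⟩ := Nat.exists_eq_add_of_le' hn
  refine ⟨y * (t * y) ^ k, ?_⟩
  rw [pow_succ'] at h3
  rw [← h3]
  nth_rewrite 2 [h3]
  simp [mul_assoc]

/-- left factorisation -/
theorem left_fac (hn : 1 ≤ n) (hM : ∀ x : M, x ^ (n + 1) = x) {w t : M} (h : JL w (t * w)) :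
    ∃ x, w = x * t * w := by
  obtain ⟨x, y, h⟩ := h
  have h1 : w = (x * t) * w * y := h.trans (by simp [mul_assoc])
  have h2 := iter_eq h1 n
  have h3 : (x * t) ^ n * w = w := by
    rw [h2, ← mul_assoc, ← mul_assoc, pow_idem hn hM, ← h2]
  obtain ⟨k, rfl⟩ := Nat.exists_eq_add_of_le' hn
  refine ⟨(x * t) ^ k * x, ?_⟩
  rw [pow_succ] at h3
  nth_rewrite 1 [← h3]
  simp [mul_assoc]

/-- a list containing all letters has a minimal suffix containing all letters -/
theorem suffix {α : Type} [DecidableEq α] (A : Finset α) (hA : A.Nonempty) (l : List α)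
    (h : ∀ a ∈ A, a ∈ l) : ∃ (l1 l2 : List α) (a : α), l = l1 ++ a :: l2 ∧ a ∈ A ∧ a ∉ l2 ∧
      ∀ b ∈ A, b ∈ a :: l2 := by
  induction l with
  | nil => obtain ⟨a, ha⟩ := hA; exact absurd (h a ha) (by simp)
  | cons b l ih =>
    by_cases hl : ∀ a ∈ A, a ∈ l
    · obtain ⟨l1, l2, a, h1, h2, h3, h4⟩ := ih hl
      exact ⟨b :: l1, l2, a, by rw [h1]; rfl, h2, h3, h4⟩
    · push Not at hl
      obtain ⟨c, hc, hcl⟩ := hl
      have hcb : c = b := by
        have := h c hc
        rcases List.mem_cons.1 this with h1 | h1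
        · exact h1
        · exact absurd h1 hcl
      subst hcb
      exact ⟨[], l, c, rfl, hc, hcl, h⟩

/-- a list containing all letters has a minimal prefix containing all letters -/
theorem pref {α : Type} [DecidableEq α] (A : Finset α) (hA : A.Nonempty) (l : List α)
    (h : ∀ a ∈ A, a ∈ l) : ∃ (l1 l2 : List α) (a : α), l = (l1 ++ [a]) ++ l2 ∧ a ∈ A ∧ a ∉ l1 ∧
      ∀ b ∈ A, b ∈ l1 ++ [a] := by
  obtain ⟨l1, l2, a, h1, h2, h3, h4⟩ := suffix A hA l.reverse (fun a ha => by simp [h a ha])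
  refine ⟨l2.reverse, l1.reverse, a, ?_, h2, by simpa using h3, ?_⟩
  · have := congrArg List.reverse h1
    simpa using this
  · intro b hb
    have := h4 b hb
    simp only [List.mem_cons] at this
    simp only [List.mem_append, List.mem_reverse, List.mem_singleton]
    tauto

variable (A : Finset M)

/-- elements represented by a word containing all letters -/
def Full : Set M := {w | ∃ l : List M, (∀ x ∈ l, x ∈ A) ∧ (∀ a ∈ A, a ∈ l) ∧ l.prod = w}

theorem full_mul {w t : M} (hw : w ∈ Full A) (ht : t ∈ Submonoid.closure (A : Set M)) :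
    w * t ∈ Full A := by
  obtain ⟨l, h1, h2, rfl⟩ := hw
  obtain ⟨l', h3, rfl⟩ := Submonoid.exists_list_of_mem_closure ht
  refine ⟨l ++ l', ?_, fun a ha => List.mem_append.2 (Or.inl (h2 a ha)), by simp⟩
  intro x hx
  rcases List.mem_append.1 hx with h | h
  · exact h1 x h
  · exact h3 x h

theorem jl_full (hn : 1 ≤ n) (hM : ∀ x : M, x ^ (n + 1) = x) {w t : M} (hw : w ∈ Full A)
    (ht : t ∈ Submonoid.closure (A : Set M)) : JL w t := by
  induction ht using Submonoid.closure_induction with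
  | mem a ha =>
    obtain ⟨l, h1, h2, rfl⟩ := hw
    obtain ⟨l1, l2, rfl⟩ := List.append_of_mem (h2 a ha)
    exact ⟨l1.prod, l2.prod, by simp [mul_assoc]⟩
  | one => exact ⟨w, 1, by simp⟩
  | mul x y _ _ hx hy => exact jl_mul hn hM hx hy

end

end Pool.Agent.H32GR
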