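import Mathlib
import Pool.Agent.H32GR.GR

set_option autoImplicit false

namespace Pool.Agent.H32GR

/-- finiteness of the groups in `M` -/
def GF (n : ℕ) (M : Type) [Monoid M] : Prop := ∀ (e : M) (Z : Set M), Z.Finite →
  (∀ z ∈ Z, e * z = z ∧ z * e = z ∧ z ^ n = e) → (Submonoid.closure Z : Set M).Finite

theorem gf_sub {n : ℕ} {M : Type} [Monoid M] (N : Submonoid M) (h : GF n M) : GF n N := by
  intro e Z hZ hz
  have h1 := h e.1 (Subtype.val '' Z) (hZ.image _) (by
    rintro _ ⟨z, hz', rfl⟩
    obtain ⟨a, b, c⟩ := hz z hz'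
    exact ⟨congrArg Subtype.val a, congrArg Subtype.val b, by simpa using congrArg Subtype.val c⟩)
  refine (h1.preimage Subtype.val_injective.injOn).subset ?_
  intro z hz'
  have h2 := Submonoid.mem_map_of_mem N.subtype hz'
  rw [MonoidHom.map_mclosure] at h2
  exact h2

theorem step {n : ℕ} (hn : 1 ≤ n) {M : Type} [Monoid M] (hM : ∀ x : M, x ^ (n + 1) = x)
    (hG : GF n M) (A : Finset M) (hA : Submonoid.closure (A : Set M) = ⊤) (hne : A.Nonempty)
    (hT : ∀ a ∈ A, (Submonoid.closure ((A : Set M) \ {a}) : Set M).Finite) : Finite M := by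
  classical
  have htop : ∀ t : M, t ∈ Submonoid.closure (A : Set M) := fun t => by rw [hA]; trivial
  let Q : Set M := ⋃ a ∈ A, (fun q => a * q) '' (Submonoid.closure ((A : Set M) \ {a}) : Set M)
  let P : Set M := ⋃ a ∈ A, (fun q => q * a) '' (Submonoid.closure ((A : Set M) \ {a}) : Set M)
  have hQ : Q.Finite := A.finite_toSet.biUnion fun a ha => (hT a ha).image _
  have hP : P.Finite := A.finite_toSet.biUnion fun a ha => (hT a ha).image _
  have hlist : ∀ (l : List M) (a : M), (∀ x ∈ l, x ∈ A) → a ∉ l →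
      l.prod ∈ Submonoid.closure ((A : Set M) \ {a}) := by
    intro l a h1 h2
    apply Submonoid.list_prod_mem
    intro x hx
    apply Submonoid.subset_closure
    exact ⟨h1 x hx, fun h => h2 (h ▸ hx)⟩
  have hsuf : ∀ w ∈ Full A, ∃ u, u ∈ Q ∧ u ∈ Full A ∧ w * u ^ n = w := by
    rintro w ⟨l, h1, h2, rfl⟩
    obtain ⟨l1, l2, a, rfl, ha, hal, hf⟩ := suffix A hne l h2
    refine ⟨a * l2.prod, ?_, ⟨a :: l2, fun x hx => h1 x (by simp only [List.mem_append]; tauto), hf,
      by simp⟩, ?_⟩
    · refine Set.mem_biUnion ha ⟨l2.prod, hlist l2 a (fun x hx => h1 x ?_) hal, rfl⟩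
      simp only [List.mem_append, List.mem_cons]; tauto
    · have : (l1 ++ a :: l2).prod = l1.prod * (a * l2.prod) := by simp
      rw [this, mul_assoc, ← pow_succ', hM]
  have hpre : ∀ w ∈ Full A, ∃ u, u ∈ P ∧ u ∈ Full A ∧ u ^ n * w = w := by
    rintro w ⟨l, h1, h2, rfl⟩
    obtain ⟨l1, l2, a, rfl, ha, hal, hf⟩ := pref A hne l h2
    refine ⟨l1.prod * a, ?_, ⟨l1 ++ [a], fun x hx => h1 x (List.mem_append.2 (Or.inl hx)), hf,
      by simp⟩, ?_⟩
    · refine Set.mem_biUnion ha ⟨l1.prod, hlist l1 a (fun x hx => h1 x ?_) hal, rfl⟩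
      simp only [List.mem_append]; tauto
    · have : (l1 ++ [a] ++ l2).prod = (l1.prod * a) * l2.prod := by simp [mul_assoc]
      rw [this, ← mul_assoc, ← pow_succ, hM]
  have hpow : ∀ u ∈ Full A, u ^ n ∈ Full A := by
    intro u hu
    obtain ⟨k, hk⟩ := Nat.exists_eq_add_of_le' hn
    rw [hk, pow_succ']
    exact full_mul A hu (htop _)
  have hu0 : A.toList.prod ∈ Full A := ⟨A.toList, by simp, by simp, rfl⟩
  obtain ⟨e, he⟩ : ∃ e, e = A.toList.prod ^ n := ⟨_, rfl⟩
  have heF : e ∈ Full A := he ▸ hpow _ hu0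
  have hee : e * e = e := by rw [he]; exact pow_idem hn hM _
  have hR : ∀ w : M, ∃ y, w ∈ Full A → w = w * e * y := by
    intro w
    by_cases hw : w ∈ Full A
    · obtain ⟨y, hy⟩ := right_fac hn hM (jl_full A hn hM hw (htop (w * e)))
      exact ⟨y, fun _ => hy⟩
    · exact ⟨1, fun h => absurd h hw⟩
  have hL : ∀ w : M, ∃ x, w ∈ Full A → w = x * e * w := by
    intro w
    by_cases hw : w ∈ Full A
    · obtain ⟨y, hy⟩ := left_fac hn hM (jl_full A hn hM hw (htop (e * w)))
      exact ⟨y, fun _ => hy⟩
    · exact ⟨1, fun h => absurd h hw⟩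
  choose k hk using hR
  choose j hj using hL
  let Ks : Set M := (fun u => k (u ^ n)) '' Q ∪ {1}
  let Js : Set M := (fun u => j (u ^ n)) '' P
  have hKs : Ks.Finite := (hQ.image _).union (Set.finite_singleton _)
  have hJs : Js.Finite := hP.image _
  let Z : Set M := Set.image2 (fun c a => e * c * a * e) Ks (A : Set M)
  have hZ : Z.Finite := hKs.image2 _ A.finite_toSet
  have hz : ∀ w : M, (e * w * e) ^ n = e := by
    intro w
    obtain ⟨y, hy⟩ := right_fac hn hM (w := e) (t := w * e)
      (jl_full A hn hM heF (htop (e * (w * e))))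
    have h1 : e = (e * w * e) * y := by rw [← mul_assoc] at hy; exact hy
    have h2 : (e * w * e) ^ n * (e * w * e) = e * w * e := by rw [← pow_succ, hM]
    have h3 : (e * w * e) ^ n * e = e := by
      calc (e * w * e) ^ n * e = (e * w * e) ^ n * ((e * w * e) * y) := by rw [← h1]
        _ = ((e * w * e) ^ n * (e * w * e)) * y := (mul_assoc _ _ _).symm
        _ = e := by rw [h2, ← h1]
    obtain ⟨m, hm⟩ := Nat.exists_eq_add_of_le' hn
    have h4 : (e * w * e) ^ n * e = (e * w * e) ^ n := by
      rw [hm, pow_succ]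
      simp only [mul_assoc, hee]
    rw [← h4, h3]
  have hGZ : (Submonoid.closure Z : Set M).Finite := by
    apply hG e Z hZ
    rintro z ⟨c, -, a, -, rfl⟩
    refine ⟨?_, ?_, ?_⟩
    · simp only [← mul_assoc, hee]
    · simp only [mul_assoc, hee]
    · have := hz (c * a)
      simpa only [mul_assoc] using this
  obtain ⟨a0, ha0⟩ := hne
  have hmem : ∀ w : M, e * w * e ∈ Submonoid.closure Z := by
    intro w
    induction htop w using Submonoid.closure_induction_right with
    | one =>
      have h1 : e * 1 * a0 * e ∈ Submonoid.closure Z :=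
        Submonoid.subset_closure ⟨1, Or.inr rfl, a0, ha0, rfl⟩
      have h2 := Submonoid.pow_mem _ h1 n
      have h3 : (e * 1 * a0 * e) ^ n = e := by
        rw [mul_one]; exact hz a0
      rw [h3] at h2
      rwa [mul_one, hee]
    | mul_right v _ a ha ih =>
      have hev : e * v ∈ Full A := full_mul A heF (htop v)
      obtain ⟨u, huQ, huF, hu⟩ := hsuf (e * v) hev
      have h1 := hk (u ^ n) (hpow u huF)
      have h2 : e * v = (e * v * e) * k (u ^ n) := by
        calc e * v = (e * v) * u ^ n := hu.symm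
          _ = (e * v) * (u ^ n * e * k (u ^ n)) := by rw [← h1]
          _ = ((e * v) * u ^ n) * e * k (u ^ n) := by simp only [mul_assoc]
          _ = _ := by rw [hu]
      have h3 : e * (v * a) * e = (e * v * e) * (e * k (u ^ n) * a * e) := by
        calc e * (v * a) * e = (e * v) * a * e := by simp only [mul_assoc]
          _ = ((e * v * e) * k (u ^ n)) * a * e := by rw [← h2]
          _ = (e * v * (e * e)) * k (u ^ n) * a * e := by rw [hee]
          _ = _ := by simp only [mul_assoc]
      rw [h3]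
      exact Submonoid.mul_mem _ ih (Submonoid.subset_closure
        ⟨k (u ^ n), Or.inl ⟨u, huQ, rfl⟩, a, ha, rfl⟩)
  have hcov : (Set.univ : Set M) ⊆
      (⋃ a ∈ A, (Submonoid.closure ((A : Set M) \ {a}) : Set M)) ∪
        Set.image2 (fun c d => c * d) (Set.image2 (fun c d => c * d) Js
          (Submonoid.closure Z : Set M)) Ks := by
    intro w _
    obtain ⟨l, h1, rfl⟩ := Submonoid.exists_list_of_mem_closure (htop w)
    by_cases hf : ∀ a ∈ A, a ∈ l
    · right
      have hw : l.prod ∈ Full A := ⟨l, h1, hf, rfl⟩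
      obtain ⟨u, huP, huF, hu⟩ := hpre _ hw
      obtain ⟨v, hvQ, hvF, hv⟩ := hsuf _ hw
      have e1 := hj (u ^ n) (hpow u huF)
      have e2 := hk (v ^ n) (hpow v hvF)
      have e3 : l.prod = (j (u ^ n) * (e * l.prod * e)) * k (v ^ n) := by
        calc l.prod = u ^ n * l.prod := hu.symm
          _ = (j (u ^ n) * e * u ^ n) * l.prod := by rw [← e1]
          _ = j (u ^ n) * e * (u ^ n * l.prod) := by simp only [mul_assoc]
          _ = j (u ^ n) * e * l.prod := by rw [hu]
          _ = j (u ^ n) * e * (l.prod * v ^ n) := by rw [hv]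
          _ = j (u ^ n) * e * (l.prod * (v ^ n * e * k (v ^ n))) := by rw [← e2]
          _ = j (u ^ n) * e * ((l.prod * v ^ n) * e * k (v ^ n)) := by simp only [mul_assoc]
          _ = j (u ^ n) * e * (l.prod * e * k (v ^ n)) := by rw [hv]
          _ = _ := by simp only [mul_assoc]
      exact ⟨j (u ^ n) * (e * l.prod * e), ⟨j (u ^ n), ⟨u, huP, rfl⟩, _, hmem _, rfl⟩,
        k (v ^ n), Or.inl ⟨v, hvQ, rfl⟩, e3.symm⟩
    · left
      push Not at hf
      obtain ⟨a, ha, hal⟩ := hf
      exact Set.mem_biUnion ha (hlist l a h1 hal)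
  have hfin : (Set.univ : Set M).Finite := by
    refine Set.Finite.subset (Set.Finite.union ?_ ?_) hcov
    · exact A.finite_toSet.biUnion fun a ha => hT a ha
    · exact (hJs.image2 _ hGZ).image2 _ hKs
  exact Set.finite_univ_iff.1 hfin

theorem main {n : ℕ} (hn : 1 ≤ n) (k : ℕ) : ∀ (M : Type) [Monoid M],
    (∀ x : M, x ^ (n + 1) = x) → GF n M → ∀ A : Finset M,
    Submonoid.closure (A : Set M) = ⊤ → A.card ≤ k → Finite M := by
  classical
  induction k with
  | zero =>
    intro M _ hM hG A hA hc
    have : A = ∅ := Finset.card_eq_zero.1 (by omega)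
    subst this
    rw [Finset.coe_empty, Submonoid.closure_empty] at hA
    have : ∀ x : M, x = 1 := fun x => by
      have : x ∈ (⊥ : Submonoid M) := by rw [hA]; trivial
      exact Submonoid.mem_bot.1 this
    have : Subsingleton M := ⟨fun a b => by rw [this a, this b]⟩
    infer_instance
  | succ k ih =>
    intro M _ hM hG A hA hc
    by_cases hne : A.Nonempty
    · apply step hn hM hG A hA hne
      intro a ha
      obtain ⟨N, hN⟩ : ∃ N : Submonoid M, N = Submonoid.closure ((A : Set M) \ {a}) := ⟨_, rfl⟩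
      have hfin : Finite N := by
        refine ih N (fun x => Subtype.ext (by simpa using hM x.1)) (gf_sub N hG)
          ((A.erase a).preimage (Subtype.val : N → M) Subtype.val_injective.injOn) ?_ ?_
        · rw [Finset.coe_preimage, Finset.coe_erase, hN]
          exact Submonoid.closure_closure_coe_preimage
        · have h1 : ((A.erase a).preimage (Subtype.val : N → M)
              Subtype.val_injective.injOn).card ≤ (A.erase a).card :=
            Finset.card_le_card_of_injOn Subtype.val (fun x hx => by simpa using hx)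
              Subtype.val_injective.injOn
          have h2 := Finset.card_erase_lt_of_mem ha
          omega
      rw [← hN]
      exact Set.toFinite _
    · apply ih M hM hG A hA
      rw [Finset.not_nonempty_iff_eq_empty.1 hne]
      simp

end Pool.Agent.H32GR
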