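import Mathlib
import Pool.Agent.H32GR.Main
import Pool.Agent.H32BU.All

set_option autoImplicit false

namespace Pool.Agent.H32GR

/-- the semigroup `S` satisfies the identities `u = v`, `(u, v) ∈ I` -/
def Sat (I : Set (FreeSemigroup ℕ × FreeSemigroup ℕ)) (S : Type) [Semigroup S] : Prop :=
  ∀ f : FreeSemigroup ℕ →ₙ* S, ∀ p ∈ I, f p.1 = f p.2

/-- `pw x k = x ^ (k + 1)` -/
def pw {S : Type} [Mul S] (x : S) : ℕ → S
  | 0 => x
  | k + 1 => pw x k * x

theorem pw_coe {S : Type} [Semigroup S] (x : S) (k : ℕ) :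
    ((pw x k : S) : WithOne S) = (x : WithOne S) ^ (k + 1) := by
  induction k with
  | zero => simp [pw]
  | succ k ih => rw [pow_succ, ← ih]; rfl

theorem pw_pow {M : Type} [Monoid M] (x : M) (k : ℕ) : pw x k = x ^ (k + 1) := by
  induction k with
  | zero => simp [pw]
  | succ k ih => rw [pow_succ, ← ih]; rfl

/-- the maximal subgroup at the idempotent `e` -/
def HH {M : Type} [Monoid M] (e : M) : Type :=
  {x : M // e * x = x ∧ x * e = x ∧ ∃ y, e * y = y ∧ y * e = y ∧ x * y = e ∧ y * x = e}

theorem hhm {M : Type} [Monoid M] {e x x' : M}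
    (h : e * x = x ∧ x * e = x ∧ ∃ y, e * y = y ∧ y * e = y ∧ x * y = e ∧ y * x = e)
    (h' : e * x' = x' ∧ x' * e = x' ∧ ∃ y, e * y = y ∧ y * e = y ∧ x' * y = e ∧ y * x' = e) :
    e * (x * x') = x * x' ∧ (x * x') * e = x * x' ∧
      ∃ y, e * y = y ∧ y * e = y ∧ (x * x') * y = e ∧ y * (x * x') = e := by
  obtain ⟨h1, h2, y, h3, h4, h5, h6⟩ := h
  obtain ⟨h1', h2', y', h3', h4', h5', h6'⟩ := h'
  refine ⟨by rw [← mul_assoc, h1], by rw [mul_assoc, h2'], y' * y, by rw [← mul_assoc, h3'],
    by rw [mul_assoc, h4], ?_, ?_⟩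
  · calc x * x' * (y' * y) = x * (x' * y') * y := by simp only [mul_assoc]
      _ = e := by rw [h5', h2, h5]
  · calc y' * y * (x * x') = y' * (y * x) * x' := by simp only [mul_assoc]
      _ = e := by rw [h6, h4', h6']

noncomputable def grp {M : Type} [Monoid M] (e : M) (he : e * e = e) : Group (HH e) :=
  letI : Mul (HH e) := ⟨fun x x' => ⟨x.1 * x'.1, hhm x.2 x'.2⟩⟩
  letI : One (HH e) := ⟨⟨e, he, he, e, he, he, he, he⟩⟩
  letI : Inv (HH e) := ⟨fun x => ⟨x.2.2.2.choose, x.2.2.2.choose_spec.1, x.2.2.2.choose_spec.2.1,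
    x.1, x.2.1, x.2.2.1, x.2.2.2.choose_spec.2.2.2, x.2.2.2.choose_spec.2.2.1⟩⟩
  Group.ofLeftAxioms (fun a b c => Subtype.ext (mul_assoc _ _ _)) (fun a => Subtype.ext a.2.1)
    (fun a => Subtype.ext a.2.2.2.choose_spec.2.2.2)

theorem gf_of (S : Type) [Semigroup S]
    (hx : ∀ x : WithOne S, x ^ (12 + 1) = x)
    (hgrp : ∀ (G : Type) [Group G] (f : G →ₙ* S), Function.Injective f → Group.FG G → Finite G) :
    GF 12 (WithOne S) := by
  intro e Z hZ hz
  have hcoe : ∀ (t : S) (w : WithOne S), (t : WithOne S) * w ≠ 1 := by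
    intro t w
    by_cases hw : w = 1
    · rw [hw, mul_one]; exact WithOne.coe_ne_one
    · obtain ⟨u, rfl⟩ := WithOne.ne_one_iff_exists.1 hw
      rw [← WithOne.coe_mul]; exact WithOne.coe_ne_one
  have hsub : ∀ T : Submonoid (WithOne S), (∀ z ∈ Z, z ∈ T) → (T : Set (WithOne S)).Finite →
      (Submonoid.closure Z : Set (WithOne S)).Finite := by
    intro T hT hf
    exact hf.subset ((Submonoid.closure_le (S := T)).2 hT)
  by_cases he1 : e = 1
  · apply hsub ⊥ _ (by simp)
    intro z hzz
    rw [Submonoid.mem_bot]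
    have h1 := (hz z hzz).2.2
    rw [he1] at h1
    by_contra hz1
    obtain ⟨t, rfl⟩ := WithOne.ne_one_iff_exists.1 hz1
    rw [pow_succ'] at h1
    exact absurd h1 (hcoe _ _)
  · by_cases hZe : Z = ∅
    · subst hZe; simp
    obtain ⟨z0, hz0⟩ := Set.nonempty_iff_ne_empty.2 hZe
    have he : e * e = e := by
      have h1 := hz z0 hz0
      have h2 : e * z0 ^ 12 = z0 ^ 12 := by
        rw [pow_succ', ← mul_assoc, h1.1]
      rw [h1.2.2] at h2
      exact h2
    letI := grp e he
    have hmul : ∀ a b : HH e, (a * b).1 = a.1 * b.1 := fun a b => rfl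
    have hne : ∀ x : HH e, x.1 ≠ 1 := by
      intro x hx1
      have h1 := x.2.1
      rw [hx1, mul_one] at h1
      exact he1 h1
    -- units
    have hin : ∀ z ∈ Z, ∃ x : HH e, x.1 = z := by
      intro z hzz
      obtain ⟨a, b, c⟩ := hz z hzz
      refine ⟨⟨z, a, b, z ^ 11, ?_, ?_, ?_, ?_⟩, rfl⟩
      · rw [pow_succ', ← mul_assoc, a]
      · rw [pow_succ, mul_assoc, b]
      · rw [← pow_succ', c]
      · rw [← pow_succ, c]
    let G : Subgroup (HH e) := Subgroup.closure {x | x.1 ∈ Z}
    have hGfg : Group.FG G := by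
      rw [Group.fg_iff_subgroup_fg, Subgroup.fg_iff]
      exact ⟨_, rfl, hZ.preimage Subtype.val_injective.injOn⟩
    let f : G →ₙ* S :=
      { toFun := fun x => WithOne.unone (hne x.1)
        map_mul' := fun x y => by
          apply WithOne.coe_injective
          rw [WithOne.coe_mul, WithOne.coe_unone, WithOne.coe_unone, WithOne.coe_unone]
          rfl }
    have hf : Function.Injective f := by
      intro x y hxy
      apply Subtype.ext
      apply Subtype.ext
      have := congrArg (fun s : S => (s : WithOne S)) hxy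
      change ((WithOne.unone (hne x.1) : S) : WithOne S) = ((WithOne.unone (hne y.1) : S) : _) at this
      rwa [WithOne.coe_unone, WithOne.coe_unone] at this
    have hGfin : Finite G := hgrp G f hf hGfg
    let T : Submonoid (WithOne S) :=
      { carrier := {x | x = 1 ∨ ∃ g : G, g.1.1 = x}
        one_mem' := Or.inl rfl
        mul_mem' := by
          rintro a b (rfl | ⟨g, rfl⟩) (rfl | ⟨h, rfl⟩)
          · left; simp
          · right; exact ⟨h, by simp⟩
          · right; exact ⟨g, by simp⟩
          · right; exact ⟨g * h, rfl⟩ }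
    apply hsub T
    · intro z hzz
      obtain ⟨x, rfl⟩ := hin z hzz
      exact Or.inr ⟨⟨x, Subgroup.subset_closure hzz⟩, rfl⟩
    · have h1 : (T : Set (WithOne S)) ⊆ {1} ∪ Set.range (fun g : G => g.1.1) := by
        rintro x (rfl | ⟨g, rfl⟩)
        · exact Or.inl rfl
        · exact Or.inr ⟨g, rfl⟩
      exact ((Set.finite_singleton _).union (Set.finite_range _)).subset h1

/-- free semigroup into free group -/
def toFG : FreeSemigroup ℕ →ₙ* FreeGroup ℕ := FreeSemigroup.lift FreeGroup.of

/-- the group laws -/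
def Lw (I : Set (FreeSemigroup ℕ × FreeSemigroup ℕ)) : Set (FreeGroup ℕ) :=
  (fun p => toFG p.1 * (toFG p.2)⁻¹) '' I

theorem obeys_iff (I : Set (FreeSemigroup ℕ × FreeSemigroup ℕ)) (G : Type) [Group G] :
    Pool.Agent.H32BU.Obeys (Lw I) G ↔ Sat I G := by
  constructor
  · intro h f p hp
    let F : FreeGroup ℕ →* G := FreeGroup.lift fun i => f (FreeSemigroup.of i)
    have h1 := h F _ ⟨p, hp, rfl⟩
    have h2 : (F : FreeGroup ℕ →ₙ* G).comp toFG = f := by
      apply FreeSemigroup.hom_ext
      funext i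
      simp [toFG, F]
    have h3 : ∀ u, F (toFG u) = f u := fun u => by rw [← h2]; rfl
    simp only [map_mul, map_inv, h3] at h1
    exact mul_inv_eq_one.1 h1
  · rintro h f _ ⟨p, hp, rfl⟩
    have h1 := h ((f : FreeGroup ℕ →ₙ* G).comp toFG) p hp
    have h2 : f (toFG p.1) = f (toFG p.2) := h1
    simp [h2]

theorem sat_inj {I : Set (FreeSemigroup ℕ × FreeSemigroup ℕ)} {S T : Type} [Semigroup S]
    [Semigroup T] (i : S →ₙ* T) (hi : Function.Injective i) (h : Sat I T) : Sat I S := by
  intro f p hp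
  apply hi
  exact h (i.comp f) p hp

theorem asm (I : Set (FreeSemigroup ℕ × FreeSemigroup ℕ))
    (h13 : ∀ (S : Type) [Semigroup S], Sat I S → ∀ x : S, pw x 12 = x)
    (h3 : ∀ (S : Type) [Semigroup S], Sat I S →
      (∃ s : Fin 3 → S, Subsemigroup.closure (Set.range s) = ⊤) → Finite S)
    (S : Type) [Semigroup S] (hS : Sat I S) (A : Finset S)
    (hA : Subsemigroup.closure (A : Set S) = ⊤) : Finite S := by
  classical
  have hx : ∀ x : WithOne S, x ^ (12 + 1) = x := by
    intro x
    by_cases h : x = 1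
    · rw [h, one_pow]
    · obtain ⟨s, rfl⟩ := WithOne.ne_one_iff_exists.1 h
      rw [← pw_coe, h13 S hS]
  have hG12 : ∀ (G : Type) [Group G], Sat I G → ∀ x : G, x ^ 12 = 1 := by
    intro G _ hG x
    have h1 := h13 G hG x
    rw [pw_pow, pow_succ] at h1
    exact mul_eq_right.1 h1
  have hgrp : ∀ (G : Type) [Group G] (f : G →ₙ* S), Function.Injective f → Group.FG G →
      Finite G := by
    intro G _ f hf hfg
    have hGs : Sat I G := sat_inj f hf hS
    refine Pool.Agent.H32BU.vfinal2 Pool.Agent.H32BU.x_INDV Pool.Agent.H32BU.x_SOLH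
      Pool.Agent.H32BU.x_MAPS Pool.Agent.H32BU.x_LFD Pool.Agent.H32BU.x_L34
      Pool.Agent.H32BU.x_BUR Pool.Agent.H32BU.x_CRD 3 le_rfl (Lw I) 12 (by norm_num)
      ?_ ?_ (Or.inl (by
        rw [show (12 : ℕ) = 2 ^ 2 * 3 by norm_num, Nat.primeFactors_mul (by norm_num)
          (by norm_num), Nat.primeFactors_prime_pow (by norm_num) Nat.prime_two,
          Nat.Prime.primeFactors Nat.prime_three]
        decide)) ?_ G ((obeys_iff I G).2 hGs) hfg
    · intro H _ hH x
      exact hG12 H ((obeys_iff I H).1 hH) x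
    · rintro H _ hH ⟨s, hs⟩
      have hHs := (obeys_iff I H).1 hH
      refine h3 H hHs ⟨s, ?_⟩
      rw [eq_top_iff]
      rintro x -
      have hx' : x ∈ Subgroup.closure (Set.range s) := by rw [hs]; trivial
      have hpow : ∀ y ∈ Subsemigroup.closure (Set.range s), ∀ m : ℕ,
          y ^ (m + 1) ∈ Subsemigroup.closure (Set.range s) := by
        intro y hy m
        induction m with
        | zero => simpa using hy
        | succ m ih => rw [pow_succ]; exact Subsemigroup.mul_mem _ ih hy
      induction hx' using Subgroup.closure_induction with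
      | mem y hy => exact Subsemigroup.subset_closure hy
      | one =>
        have := hpow (s 0) (Subsemigroup.subset_closure ⟨0, rfl⟩) 11
        rwa [hG12 H hHs] at this
      | mul a b _ _ ha hb => exact Subsemigroup.mul_mem _ ha hb
      | inv a _ ha =>
        have h1 := hpow a ha 10
        have h2 : a⁻¹ = a ^ (10 + 1) := by
          rw [inv_eq_iff_mul_eq_one, ← pow_succ', hG12 H hHs]
        rwa [h2]
    · intro p k hp hk h4
      exfalso
      have h1 : p ^ k ∈ Nat.divisors 12 := Nat.mem_divisors.2 ⟨hk, by norm_num⟩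
      have h2 : p ^ k = 6 ∨ p ^ k = 12 := by
        have : Nat.divisors 12 = {1, 2, 3, 4, 6, 12} := by decide
        rw [this] at h1
        simp only [Finset.mem_insert, Finset.mem_singleton] at h1
        omega
      have h3 : 2 ∣ p ^ k := by rcases h2 with h | h <;> rw [h] <;> norm_num
      have h5 : 3 ∣ p ^ k := by rcases h2 with h | h <;> rw [h] <;> norm_num
      have h6 := (Nat.prime_dvd_prime_iff_eq Nat.prime_two hp).1 (Nat.prime_two.dvd_of_dvd_pow h3)
      have h7 := (Nat.prime_dvd_prime_iff_eq Nat.prime_three hp).1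
        (Nat.prime_three.dvd_of_dvd_pow h5)
      omega
  have hfin : Finite (WithOne S) := by
    refine main (n := 12) (by norm_num) _ (WithOne S) hx (gf_of S hx hgrp)
      (A.image (fun s => (s : WithOne S))) ?_ le_rfl
    rw [eq_top_iff]
    rintro x -
    by_cases h : x = 1
    · rw [h]; exact one_mem _
    · obtain ⟨s, rfl⟩ := WithOne.ne_one_iff_exists.1 h
      have hs : s ∈ Subsemigroup.closure (A : Set S) := by rw [hA]; trivial
      induction hs using Subsemigroup.closure_induction with
      | mem y hy => exact Submonoid.subset_closure (by simpa using hy)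
      | mul a b _ _ ha hb =>
        rw [WithOne.coe_mul]
        exact Submonoid.mul_mem _ (ha WithOne.coe_ne_one) (hb WithOne.coe_ne_one)
  exact Finite.of_injective (fun s : S => (s : WithOne S)) WithOne.coe_injective

end Pool.Agent.H32GR
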